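import Pool.Agent.Lib.MP_1a91b9_ntT3.S8.Unr
import Pool.Agent.Lib.MP_1a91b9_ntT.S4.NormPsi

/-!
# S8 (T3): the units which are `1` modulo `ω - 2`
-/

set_option autoImplicit false

namespace Pool.Agent.Lib.MP_1a91b9_ntT3.S8

open NumberField IsDedekindDomain Module Pool.Agent.Lib.MP_1a91b9_ntT
open Pool.Agent.Lib.MP_1a91b9_ntT.S5 (below mem_below exists_above below_below)

universe u

theorem om_sq : om ^ 2 + om + 1 = 0 := by
  have h := om_spec.geom_sum_eq_zero (by norm_num)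
  rw [Finset.sum_range_succ, Finset.sum_range_succ, Finset.sum_range_one] at h
  linear_combination h

theorem omO_sq : omO ^ 2 + omO + 1 = 0 := by
  apply RingOfIntegers.ext
  exact om_sq

/-- The six units. -/
theorem unit_cases (u : (𝓞 K)ˣ) : (u : 𝓞 K) = 1 ∨ (u : 𝓞 K) = -1 ∨ (u : 𝓞 K) = omO ∨
    (u : 𝓞 K) = -omO ∨ (u : 𝓞 K) = omO ^ 2 ∨ (u : 𝓞 K) = -omO ^ 2 := by
  have h := IsCyclotomicExtension.Rat.Three.Units.mem om_spec u
  have e : ((om_spec.toInteger_isPrimitiveRoot.isUnit (by decide)).unit : 𝓞 K) = omO := rfl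
  simp only [List.mem_cons, List.not_mem_nil, or_false] at h
  rcases h with h | h | h | h | h | h
  · exact Or.inl (by rw [h]; rfl)
  · exact Or.inr (Or.inl (by rw [h]; rfl))
  · exact Or.inr (Or.inr (Or.inl (by rw [h]; rfl)))
  · exact Or.inr (Or.inr (Or.inr (Or.inl (by rw [h]; rfl))))
  · exact Or.inr (Or.inr (Or.inr (Or.inr (Or.inl (by rw [h]; rfl)))))
  · exact Or.inr (Or.inr (Or.inr (Or.inr (Or.inr (by rw [h]; rfl)))))

/-- `ω - 2` is not a unit. -/
theorem piO_not_unit : ¬ IsUnit piO := by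
  rintro ⟨u, hu⟩
  have h0 := om_sq
  have hpi : ((piO : 𝓞 K) : K) = om - 2 := rfl
  have c1 : ((omO : 𝓞 K) : K) = om := rfl
  have key : ∀ x : 𝓞 K, (u : 𝓞 K) = x → om - 2 = (x : K) := by
    intro x hx
    rw [← hx, hu, hpi]
  rcases unit_cases u with h | h | h | h | h | h
  · have h1 := key _ h
    have h2 : om = 3 := by
      have e : ((1 : 𝓞 K) : K) = 1 := map_one _
      rw [e] at h1
      linear_combination h1
    rw [h2] at h0
    norm_num at h0
  · have h1 := key _ h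
    have h2 : om = 1 := by
      change om - 2 = algebraMap (𝓞 K) K (-1) at h1
      rw [map_neg, map_one] at h1
      linear_combination h1
    rw [h2] at h0
    norm_num at h0
  · have h1 := key _ h
    rw [c1] at h1
    have h2 : (2 : K) = 0 := by linear_combination -h1
    norm_num at h2
  · have h1 := key _ h
    change om - 2 = algebraMap (𝓞 K) K (-omO) at h1
    rw [map_neg] at h1
    change om - 2 = -om at h1
    have h2 : om = 1 := by linear_combination h1 / 2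
    rw [h2] at h0
    norm_num at h0
  · have h1 := key _ h
    change om - 2 = algebraMap (𝓞 K) K (omO ^ 2) at h1
    rw [map_pow] at h1
    change om - 2 = om ^ 2 at h1
    have h2 : om = 1 / 2 := by linear_combination h1 / 2 + h0 / 2
    rw [h2] at h0
    norm_num at h0
  · have h1 := key _ h
    change om - 2 = algebraMap (𝓞 K) K (-omO ^ 2) at h1
    rw [map_neg, map_pow] at h1
    change om - 2 = -om ^ 2 at h1
    have h2 : (3 : K) = 0 := by linear_combination -h1 + h0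
    norm_num at h2

/-- The place `(ω - 2)`. -/
theorem exists_piPlace : ∃ v : HeightOneSpectrum (𝓞 K), piO ∈ v.asIdeal := by
  obtain ⟨M, hM, hle⟩ := Ideal.exists_le_maximal (Ideal.span {piO}) (by
    rw [Ne, Ideal.span_singleton_eq_top]
    exact piO_not_unit)
  have hmem : piO ∈ M := hle (Ideal.mem_span_singleton_self _)
  refine ⟨⟨M, hM.isPrime, ?_⟩, hmem⟩
  rintro rfl
  have h0 : piO = 0 := hmem
  have h1 : om - 2 = 0 := congrArg (fun x : 𝓞 K => (x : K)) h0
  have h2 := om_sq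
  have h3 : om = 2 := by linear_combination h1
  rw [h3] at h2
  norm_num at h2

theorem seven_mem {F : Type*} [Field F] [NumberField F] [Algebra K F]
    (w : HeightOneSpectrum (𝓞 F)) (h : algebraMap (𝓞 K) (𝓞 F) piO ∈ w.asIdeal) :
    (7 : 𝓞 F) ∈ w.asIdeal := by
  have h1 : (7 : 𝓞 K) = (-3 - omO) * piO := by
    rw [piO]
    linear_combination omO_sq
  have h2 : (7 : 𝓞 F) = algebraMap (𝓞 K) (𝓞 F) (-3 - omO) * algebraMap (𝓞 K) (𝓞 F) piO := by
    rw [← map_mul, ← h1, map_ofNat]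
  rw [h2]
  exact Ideal.mul_mem_left _ _ h

/-- A number prime to seven is not in the place. -/
theorem int_notMem {F : Type*} [Field F] [NumberField F] (w : HeightOneSpectrum (𝓞 F))
    (h : (7 : 𝓞 F) ∈ w.asIdeal) (n : ℤ) (hn : IsCoprime n 7) : (n : 𝓞 F) ∉ w.asIdeal := by
  intro h1
  obtain ⟨a, b, hab⟩ := hn
  apply w.isPrime.ne_top
  rw [Ideal.eq_top_iff_one]
  have h2 : (1 : 𝓞 F) = (a : 𝓞 F) * (n : 𝓞 F) + (b : 𝓞 F) * 7 := by
    have h3 := congrArg (fun z : ℤ => (z : 𝓞 F)) hab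
    simp only [Int.cast_add, Int.cast_mul, Int.cast_one, Int.cast_ofNat] at h3
    exact h3.symm
  rw [h2]
  exact add_mem (Ideal.mul_mem_left _ _ h1) (Ideal.mul_mem_left _ _ h)

/-- A unit of `K` which is `1` modulo `ω - 2` is `1`. -/
theorem unit_eq_one (u : (𝓞 K)ˣ) (h : piO ∣ (u : 𝓞 K) - 1) : (u : 𝓞 K) = 1 := by
  obtain ⟨v, hv⟩ := exists_piPlace
  have h7 : (7 : 𝓞 K) ∈ v.asIdeal := seven_mem (F := K) v hv
  have hu : (u : 𝓞 K) - 1 ∈ v.asIdeal := by
    obtain ⟨c, hc⟩ := h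
    rw [hc]
    exact Ideal.mul_mem_right _ _ hv
  have hom : omO - 2 ∈ v.asIdeal := hv
  have key : ∀ (n : ℤ) (c : 𝓞 K), IsCoprime n 7 → (u : 𝓞 K) - 1 = n + c * (omO - 2) → False := by
    intro n c hn he
    apply int_notMem v h7 n hn
    have h1 : (n : 𝓞 K) = ((u : 𝓞 K) - 1) - c * (omO - 2) := by rw [he]; ring
    rw [h1]
    exact Ideal.sub_mem _ hu (Ideal.mul_mem_left _ _ hom)
  rcases unit_cases u with h | h | h | h | h | h
  · exact h
  · exact (key (-2) 0 (by norm_num) (by rw [h]; push_cast; ring)).elim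
  · exact (key 1 1 (by norm_num) (by rw [h]; push_cast; ring)).elim
  · exact (key (-3) (-1) (by norm_num) (by rw [h]; push_cast; ring)).elim
  · exact (key 3 (omO + 2) (by norm_num) (by rw [h]; push_cast; ring)).elim
  · exact (key (-5) (-(omO + 2)) (by norm_num) (by rw [h]; push_cast; ring)).elim

section
variable {F : Type u} [Field F] [NumberField F] [Algebra K F]

/-- The norm of a unit which is `1` modulo `ω - 2`. -/
theorem units_norm (𝔪 : Ideal (𝓞 F)) (hm : 𝔪 ≤ Ideal.span {algebraMap (𝓞 K) (𝓞 F) piO})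
    (u : (𝓞 F)ˣ) (hu : (u : 𝓞 F) - 1 ∈ 𝔪) : Algebra.norm K ((u : 𝓞 F) : F) = 1 := by
  have h1 : algebraMap (𝓞 K) (𝓞 F) piO ∣ (u : 𝓞 F) - 1 := Ideal.mem_span_singleton.1 (hm hu)
  have h2 := S4.nK_congr (F := F) piO (u : 𝓞 F) 1 h1
  rw [S4.nK_one] at h2
  have h3 : IsUnit (S4.nK (u : 𝓞 F)) := u.isUnit.map (Algebra.intNorm (𝓞 K) (𝓞 F))
  obtain ⟨u', hu'⟩ := h3
  rw [← hu'] at h2
  have h4 := unit_eq_one u' h2
  rw [hu'] at h4
  rw [← S4.nK_coe, h4]
  exact map_one _

/-- A primitive seventh root of unity does not exist when the degree over `K` is odd. -/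
theorem no_seven (hodd : Odd (finrank K F)) (z : F) : ¬ IsPrimitiveRoot z 7 := by
  intro hz
  have h3 : IsPrimitiveRoot (algebraMap K F om) 3 :=
    om_spec.map_of_injective (algebraMap K F).injective
  have h21 : IsPrimitiveRoot (algebraMap K F om * z) 21 := by
    rw [IsPrimitiveRoot.iff_orderOf]
    have h4 := (Commute.all (algebraMap K F om) z).orderOf_mul_eq_mul_orderOf_of_coprime (by
      rw [← h3.eq_orderOf, ← hz.eq_orderOf]
      decide)
    rw [h4, ← h3.eq_orderOf, ← hz.eq_orderOf]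
  have hint : IsIntegral ℚ (algebraMap K F om * z) := IsIntegral.of_finite _ _
  have hmin := Polynomial.cyclotomic_eq_minpoly_rat h21 (by norm_num)
  have hdeg : (minpoly ℚ (algebraMap K F om * z)).natDegree = 12 := by
    rw [← hmin, Polynomial.natDegree_cyclotomic]
    decide
  have hdvd := minpoly.degree_dvd hint
  rw [hdeg] at hdvd
  have hK : finrank ℚ K = 2 := by
    rw [IsCyclotomicExtension.finrank (n := 3) K (Polynomial.cyclotomic.irreducible_rat (by norm_num))]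
    decide
  rw [← Module.finrank_mul_finrank ℚ K F, hK] at hdvd
  obtain ⟨m, hm⟩ := hodd
  omega

/-- A unit of finite order which is `1` modulo `ω - 2` is `1`. -/
theorem units_tor (hodd : Odd (finrank K F)) (𝔪 : Ideal (𝓞 F))
    (hm : 𝔪 ≤ Ideal.span {algebraMap (𝓞 K) (𝓞 F) piO})
    (u : (𝓞 F)ˣ) (hu : (u : 𝓞 F) - 1 ∈ 𝔪) (k : ℕ) (hk : 0 < k) (huk : u ^ k = 1) : u = 1 := by
  by_contra hne
  have hfo : 0 < orderOf u := orderOf_pos_iff.2 (isOfFinOrder_iff_pow_eq_one.2 ⟨k, hk, huk⟩)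
  have h1 : orderOf u ≠ 1 := fun h => hne (orderOf_eq_one_iff.1 h)
  obtain ⟨p, hp, hpd⟩ := Nat.exists_prime_and_dvd h1
  obtain ⟨m, hm'⟩ := hpd
  have hm0 : m ≠ 0 := by
    rintro rfl
    rw [hm', mul_zero] at hfo
    exact lt_irrefl _ hfo
  have hord : orderOf (u ^ m) = p := by
    rw [orderOf_pow' u hm0, hm', Nat.gcd_eq_right (Dvd.intro_left p rfl),
      Nat.mul_div_cancel _ (Nat.pos_of_ne_zero hm0)]
  obtain ⟨v, hv⟩ := exists_piPlace
  obtain ⟨w, hw⟩ := exists_above K F v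
  have hpw : algebraMap (𝓞 K) (𝓞 F) piO ∈ w.asIdeal := by
    rw [← mem_below, hw]
    exact hv
  have h7 := seven_mem w hpw
  have huw : (u : 𝓞 F) - 1 ∈ w.asIdeal := by
    have h2 := hm hu
    rw [Ideal.mem_span_singleton] at h2
    obtain ⟨c, hc⟩ := h2
    rw [hc]
    exact Ideal.mul_mem_right _ _ hpw
  set z : 𝓞 F := (u : 𝓞 F) ^ m with hz
  have hzw : z - 1 ∈ w.asIdeal := by
    have h3 : (u : 𝓞 F) - 1 ∣ (u : 𝓞 F) ^ m - 1 := by
      have := sub_dvd_pow_sub_pow (u : 𝓞 F) 1 m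
      rwa [one_pow] at this
    obtain ⟨c, hc⟩ := h3
    rw [hz, hc]
    exact Ideal.mul_mem_right _ _ huw
  have hprim : IsPrimitiveRoot z p := by
    have h4 : IsPrimitiveRoot (u ^ m) p := by rw [← hord]; exact IsPrimitiveRoot.orderOf _
    have h5 := h4.map_of_injective (f := Units.coeHom (𝓞 F)) Units.val_injective
    have h6 : (Units.coeHom (𝓞 F)) (u ^ m) = z := by
      rw [hz, Units.coeHom_apply, Units.val_pow_eq_pow_val]
    rwa [h6] at h5
  have hpdvd : z - 1 ∣ (p : 𝓞 F) := by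
    have hfp : Fact p.Prime := ⟨hp⟩
    have h7 : (Polynomial.cyclotomic p (𝓞 F)).eval z = 0 :=
      hprim.isRoot_cyclotomic hp.pos
    have h8 : (Polynomial.cyclotomic p (𝓞 F)).eval 1 = (p : 𝓞 F) := Polynomial.eval_one_cyclotomic_prime
    have h9 := Polynomial.sub_dvd_eval_sub z 1 (Polynomial.cyclotomic p (𝓞 F))
    rw [h7, h8, zero_sub, dvd_neg] at h9
    exact h9
  have hpmem : (p : 𝓞 F) ∈ w.asIdeal := by
    obtain ⟨c, hc⟩ := hpdvd
    rw [hc]
    exact Ideal.mul_mem_right _ _ hzw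
  have hp7 : p = 7 := by
    by_contra hne7
    refine int_notMem w h7 (p : ℤ) ?_ (by exact_mod_cast hpmem)
    have h10 : Nat.Coprime p 7 := (Nat.coprime_primes hp (by norm_num)).2 hne7
    exact_mod_cast Nat.isCoprime_iff_coprime.2 h10
  subst hp7
  exact no_seven hodd (z : F) (hprim.map_of_injective (f := algebraMap (𝓞 F) F)
    RingOfIntegers.coe_injective)

theorem tower_odd (h : TowerK3 F) : Odd (finrank K F) := by
  obtain ⟨k, hk⟩ := finrank_tower3 h
  rw [hk]
  exact Odd.pow (by decide)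

theorem units_tor_tower (h : TowerK3 F) (𝔪 : Ideal (𝓞 F))
    (hm : 𝔪 ≤ Ideal.span {algebraMap (𝓞 K) (𝓞 F) piO})
    (u : (𝓞 F)ˣ) (hu : (u : 𝓞 F) - 1 ∈ 𝔪) (k : ℕ) (hk : 0 < k) (huk : u ^ k = 1) : u = 1 :=
  units_tor (tower_odd h) 𝔪 hm u hu k hk huk

end

end Pool.Agent.Lib.MP_1a91b9_ntT3.S8
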