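import Pool.Agent.Lib.MP_1a91b9_ntT3.Base
import Pool.Agent.Lib.MP_1a91b9_ntT.S5.Places

/-!
# S8 (T3): subfields of Galois extensions of `K` of degree a power of three are towers
-/

set_option autoImplicit false

namespace Pool.Agent.Lib.MP_1a91b9_ntT3.S8

open NumberField IsDedekindDomain Module Pool.Agent.Lib.MP_1a91b9_ntT
open Pool.Agent.Lib.MP_1a91b9_ntT.S5 (below mem_below exists_above below_below)

universe u

section ram
variable {k F F' : Type*} [Field k] [NumberField k] [Field F] [NumberField F] [Field F']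
  [NumberField F'] [Algebra k F] [Algebra k F'] [Algebra F F'] [IsScalarTower k F F']

omit [NumberField k] [NumberField F] [NumberField F'] in
theorem algebraMap_tower (x : 𝓞 k) : algebraMap (𝓞 F) (𝓞 F') (algebraMap (𝓞 k) (𝓞 F) x) =
    algebraMap (𝓞 k) (𝓞 F') x := by
  apply RingOfIntegers.ext
  exact (IsScalarTower.algebraMap_apply k F F' (x : k)).symm

theorem map_tower (I : Ideal (𝓞 k)) :
    I.map (algebraMap (𝓞 k) (𝓞 F')) =
      (I.map (algebraMap (𝓞 k) (𝓞 F))).map (algebraMap (𝓞 F) (𝓞 F')) := by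
  rw [Ideal.map_map]
  have h : algebraMap (𝓞 k) (𝓞 F') = (algebraMap (𝓞 F) (𝓞 F')).comp (algebraMap (𝓞 k) (𝓞 F)) :=
    RingHom.ext fun x => (algebraMap_tower x).symm
  rw [h]

/-- Ramification at a place gives ramification at the place below. -/
theorem ram_down (v : HeightOneSpectrum (𝓞 F)) (h : Ram F' v) : Ram F' (below k v) := by
  obtain ⟨w, hw⟩ := h
  refine ⟨w, ?_⟩
  rw [map_tower (F := F)]
  refine (Ideal.map_mono ?_).trans hw
  rw [Ideal.map_le_iff_le_comap]
  exact le_of_eq rfl

/-- Ramification goes up. -/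
theorem ram_up (q : HeightOneSpectrum (𝓞 k)) (h : Ram F q) : Ram F' q := by
  obtain ⟨w, hw⟩ := h
  obtain ⟨w', hw'⟩ := exists_above F F' w
  refine ⟨w', ?_⟩
  rw [map_tower (F := F)]
  refine (Ideal.map_mono hw).trans ?_
  rw [Ideal.map_pow]
  refine Ideal.pow_right_mono ?_ 2
  rw [Ideal.map_le_iff_le_comap, ← hw']
  exact le_of_eq rfl

end ram

section res
variable {F F' : Type*} [Field F] [NumberField F] [Field F'] [NumberField F'] [Algebra F F']

/-- A quadratic polynomial without roots modulo a place has no roots modulo the places above it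
in a Galois extension of odd degree. -/
theorem noroot_up [IsGalois F F'] (h3 : Odd (finrank F F')) (w : HeightOneSpectrum (𝓞 F'))
    (c : 𝓞 F) (hno : ∀ t : 𝓞 F, t ^ 2 - c * t + 1 ∉ (below F w).asIdeal) (t : 𝓞 F') :
    t ^ 2 - algebraMap (𝓞 F) (𝓞 F') c * t + 1 ∉ w.asIdeal := by
  intro ht
  obtain ⟨p, hp⟩ : ∃ p : Ideal (𝓞 F), p = (below F w).asIdeal := ⟨_, rfl⟩
  obtain ⟨q, hq⟩ : ∃ q : Ideal (𝓞 F'), q = w.asIdeal := ⟨_, rfl⟩
  have hover : q.LiesOver p := by
    rw [hp, hq]
    exact ⟨rfl⟩
  have hpm : p.IsMaximal := by rw [hp]; exact (below F w).isMaximal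
  have hqm : q.IsMaximal := by rw [hq]; exact w.isMaximal
  rw [← hp] at hno
  rw [← hq] at ht
  let _ : Field (𝓞 F ⧸ p) := Ideal.Quotient.field p
  let _ : Field (𝓞 F' ⧸ q) := Ideal.Quotient.field q
  have hdeg : Odd (finrank (𝓞 F ⧸ p) (𝓞 F' ⧸ q)) := by
    rw [← Ideal.inertiaDeg_eq_of_isMaximal p q, ← Ideal.inertiaDegIn_eq_inertiaDeg p q Gal(F'/F)]
    have h1 := Ideal.ncard_primesOver_mul_ramificationIdxIn_mul_inertiaDegIn p (𝓞 F') Gal(F'/F)
    rw [IsGalois.card_aut_eq_finrank] at h1
    rw [← h1] at h3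
    exact (Nat.odd_mul.1 (Nat.odd_mul.1 h3).2).2
  have hfin : FiniteDimensional (𝓞 F ⧸ p) (𝓞 F' ⧸ q) := FiniteDimensional.of_finrank_pos hdeg.pos
  set τ : 𝓞 F' ⧸ q := Ideal.Quotient.mk q t with hτ
  have hmk : ∀ x : 𝓞 F, algebraMap (𝓞 F ⧸ p) (𝓞 F' ⧸ q) (Ideal.Quotient.mk p x) =
      Ideal.Quotient.mk q (algebraMap (𝓞 F) (𝓞 F') x) := fun x => rfl
  have hroot : τ ^ 2 - algebraMap (𝓞 F ⧸ p) (𝓞 F' ⧸ q) (Ideal.Quotient.mk p c) * τ + 1 = 0 := by
    rw [hmk, hτ, ← map_pow, ← map_mul, ← map_sub, ← map_one (Ideal.Quotient.mk q), ← map_add]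
    exact Ideal.Quotient.eq_zero_iff_mem.2 ht
  set P : Polynomial (𝓞 F ⧸ p) := Polynomial.X ^ 2 +
    (Polynomial.C (-(Ideal.Quotient.mk p c)) * Polynomial.X + 1) with hP
  have hPm : P.Monic := by
    rw [hP]
    apply Polynomial.monic_X_pow_add
    compute_degree!
  have hPd : P.natDegree ≤ 2 := by
    rw [hP]
    compute_degree
  have hPr : Polynomial.aeval τ P = 0 := by
    rw [hP]
    simp only [map_add, map_mul, map_pow, Polynomial.aeval_X, Polynomial.aeval_C, map_neg, map_one]
    linear_combination hroot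
  have hdvd := minpoly.dvd (𝓞 F ⧸ p) τ hPr
  have hle : (minpoly (𝓞 F ⧸ p) τ).natDegree ≤ 2 :=
    (Polynomial.natDegree_le_of_dvd hdvd hPm.ne_zero).trans hPd
  have hint : IsIntegral (𝓞 F ⧸ p) τ := IsIntegral.of_finite _ _
  have hpos := minpoly.natDegree_pos hint
  have hodd : Odd (minpoly (𝓞 F ⧸ p) τ).natDegree :=
    Odd.of_dvd_nat hdeg (minpoly.degree_dvd hint)
  have hone : (minpoly (𝓞 F ⧸ p) τ).natDegree = 1 := by
    obtain ⟨m, hm⟩ := hodd
    omega
  obtain ⟨s', hs'⟩ := minpoly.natDegree_eq_one_iff.1 hone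
  obtain ⟨s, rfl⟩ := Ideal.Quotient.mk_surjective s'
  apply hno s
  rw [← Ideal.Quotient.eq_zero_iff_mem]
  apply (algebraMap (𝓞 F ⧸ p) (𝓞 F' ⧸ q)).injective
  rw [map_add, map_sub, map_mul, map_pow, map_one, map_add, map_sub, map_mul, map_pow, map_one,
    map_zero]
  have hs'' : algebraMap (𝓞 F ⧸ p) (𝓞 F' ⧸ q) (Ideal.Quotient.mk p s) = τ := hs'
  rw [hs'']
  exact hroot

end res

section group

/-- In a tower `k ⊆ F ⊆ M`, with `M` Galois over `k` of degree a power of the prime `ℓ`, an
extension `F` of degree `ℓ` is Galois. -/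
theorem galois_of_prime {k F M : Type*} [Field k] [Field F] [Field M] [Algebra k F] [Algebra k M]
    [Algebra F M] [IsScalarTower k F M] [IsGalois k M] [FiniteDimensional k M] {ℓ n : ℕ}
    (hℓ : ℓ.Prime) (hM : finrank k M = ℓ ^ n) (hF : finrank k F = ℓ) : IsGalois k F := by
  let f : F →ₐ[k] M := IsScalarTower.toAlgHom k F M
  let e : F ≃ₐ[k] f.fieldRange := AlgEquiv.ofInjectiveField f
  have h1 : finrank k f.fieldRange = ℓ := by
    rw [← e.toLinearEquiv.finrank_eq, hF]
  have h2 : f.fieldRange.fixingSubgroup.index = ℓ := by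
    rw [← IntermediateField.finrank_eq_fixingSubgroup_index, h1]
  have hcard : Nat.card Gal(M/k) = ℓ ^ n := by
    rw [IsGalois.card_aut_eq_finrank, hM]
  have hn : n ≠ 0 := by
    rintro rfl
    have h3 : f.fieldRange.fixingSubgroup.index ∣ Nat.card Gal(M/k) := Subgroup.index_dvd_card _
    rw [hcard, h2, pow_zero, Nat.dvd_one] at h3
    exact hℓ.one_lt.ne' h3
  have h4 : f.fieldRange.fixingSubgroup.Normal := by
    apply Subgroup.normal_of_index_eq_minFac_card
    rw [h2, hcard, Nat.Prime.pow_minFac hℓ hn]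
  have h5 : IsGalois k f.fieldRange := (InfiniteGalois.normal_iff_isGalois _).1 h4
  exact IsGalois.of_algEquiv e.symm

end group

/-- The ramification condition. -/
def RamCond3 (F : Type*) [Field F] [NumberField F] [Algebra K F] : Prop :=
  ∀ q : HeightOneSpectrum (𝓞 K), Ram F q → (3 : 𝓞 K) ∉ q.asIdeal ∧
    (piO ∉ q.asIdeal → ∀ t : 𝓞 K, t ^ 2 - omO * t + 1 ∉ q.asIdeal)

/-- No roots over `K` implies no roots. -/
def NR (F : Type*) [Field F] [NumberField F] [Algebra K F] : Prop :=
  ∀ v : HeightOneSpectrum (𝓞 F), (∀ t : 𝓞 K, t ^ 2 - omO * t + 1 ∉ (below K v).asIdeal) →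
    ∀ t : 𝓞 F, t ^ 2 - algebraMap (𝓞 K) (𝓞 F) omO * t + 1 ∉ v.asIdeal

theorem nr_base {F : Type*} [Field F] [NumberField F] [Algebra K F]
    (h : Function.Bijective (algebraMap K F)) : NR F := by
  intro v hv t ht
  obtain ⟨s, hs⟩ : ∃ s : 𝓞 K, algebraMap (𝓞 K) (𝓞 F) s = t := by
    obtain ⟨y, hy⟩ := h.2 (t : F)
    have hint : IsIntegral ℤ y := by
      have h1 : IsIntegral ℤ (algebraMap K F y) := by
        rw [hy]
        exact RingOfIntegers.isIntegral_coe t
      exact (isIntegral_algebraMap_iff h.1).1 h1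
    exact ⟨⟨y, hint⟩, RingOfIntegers.ext hy⟩
  apply hv s
  rw [mem_below, map_add, map_sub, map_mul, map_pow, map_one, hs]
  exact ht

theorem NR.up {F F' : Type*} [Field F] [NumberField F] [Field F'] [NumberField F']
    [Algebra K F] [Algebra K F'] [Algebra F F'] [IsScalarTower K F F'] [IsGalois F F']
    (h3 : Odd (finrank F F')) (h : NR F) : NR F' := by
  intro w hw t
  rw [← algebraMap_tower (F := F) (F' := F') omO]
  refine noroot_up h3 w _ (h (below F w) ?_) t
  rw [below_below]
  exact hw

theorem towerK3_congr {F : Type u} [Field F] [NumberField F] [Algebra K F] (h : TowerK3 F) :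
    ∀ (F₂ : Type u) [Field F₂] [NumberField F₂] [Algebra K F₂] (_ : F ≃ₐ[K] F₂),
      TowerK3 F₂ := by
  intro F₂ _ _ _ e
  cases h with
  | base F hb =>
    refine TowerK3.base F₂ ?_
    have h1 : (algebraMap K F₂ : K → F₂) = e ∘ algebraMap K F := by
      funext x
      exact (e.commutes x).symm
    rw [h1]
    exact e.bijective.comp hb
  | step N F hG hr hu ha h =>
    let alg : Algebra N F₂ := (e.toRingEquiv.toRingHom.comp (algebraMap N F)).toAlgebra
    have hmap : ∀ y : N, algebraMap N F₂ y = e (algebraMap N F y) := fun y => rfl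
    have hst : IsScalarTower K N F₂ := IsScalarTower.of_algebraMap_eq fun x => by
      rw [hmap, ← IsScalarTower.algebraMap_apply K N F, e.commutes]
    let e' : F ≃ₐ[N] F₂ := AlgEquiv.ofRingEquiv (f := e.toRingEquiv) fun y => rfl
    have hG2 : IsGalois N F₂ := IsGalois.of_algEquiv e'
    have hr2 : finrank N F₂ = 3 := by rw [← e'.toLinearEquiv.finrank_eq, hr]
    let alg2 : Algebra F₂ F := e'.symm.toRingEquiv.toRingHom.toAlgebra
    have hst2 : IsScalarTower N F₂ F := IsScalarTower.of_algebraMap_eq fun x =>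
      (e'.symm.commutes x).symm
    have hram : ∀ v : HeightOneSpectrum (𝓞 N), Ram F₂ v → Ram F v := fun v hv => ram_up v hv
    exact TowerK3.step N F₂ hG2 hr2 (fun v h3 hv => hu v h3 (hram v hv))
      (fun v hv => ha v (hram v hv)) h

theorem tower_inter {M : Type u} [Field M] [NumberField M] [Algebra K M] [IsGalois K M] (n : ℕ)
    (hM : finrank K M = 3 ^ n) (k : ℕ) : ∀ E' : IntermediateField K M, finrank K E' = k →
      RamCond3 E' → TowerK3 E' ∧ NR E' := by
  induction k using Nat.strong_induction_on with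
  | _ k ih =>
    intro E' hk hr
    by_cases hE : finrank K E' = 1
    · have hbot : E' = ⊥ := IntermediateField.finrank_eq_one_iff.1 hE
      have hb : Function.Bijective (algebraMap K E') := by
        refine ⟨(algebraMap K E').injective, fun y => ?_⟩
        have hy : (y : M) ∈ (⊥ : IntermediateField K M) := hbot ▸ y.2
        obtain ⟨r, hr⟩ := IntermediateField.mem_bot.1 hy
        exact ⟨r, Subtype.ext hr⟩
      exact ⟨TowerK3.base _ hb, nr_base hb⟩
    · have hfd : FiniteDimensional K M := Module.Finite.of_restrictScalars_finite ℚ K M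
      have hcardG : Nat.card Gal(M/K) = 3 ^ n := by
        rw [IsGalois.card_aut_eq_finrank, hM]
      have hmul : finrank K E' * finrank E' M = 3 ^ n := by
        rw [Module.finrank_mul_finrank, hM]
      have hcardH : Nat.card E'.fixingSubgroup = finrank E' M :=
        IsGalois.card_fixingSubgroup_eq_finrank E'
      obtain ⟨m, hmn, hm⟩ : ∃ m ≤ n, finrank E' M = 3 ^ m :=
        (Nat.dvd_prime_pow Nat.prime_three).1 ⟨_, by rw [← hmul]; ring⟩
      have hmlt : m < n := by
        rcases hmn.lt_or_eq with h | h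
        · exact h
        · exfalso
          apply hE
          rw [hm, h] at hmul
          exact Nat.eq_of_mul_eq_mul_right (pow_pos three_pos n) (by rw [hmul, one_mul])
      have hfact : Fact (Nat.Prime 3) := ⟨Nat.prime_three⟩
      obtain ⟨H, hHcard, hHle⟩ := Sylow.exists_subgroup_card_pow_succ (p := 3) (n := m)
        (by rw [hcardG]; exact pow_dvd_pow 3 hmlt) (H := E'.fixingSubgroup) (by rw [hcardH, hm])
      set E'' : IntermediateField K M := IntermediateField.fixedField H with hE''
      have hle : E'' ≤ E' := by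
        have h1 := IntermediateField.fixedField_antitone (F := K) (E := M) hHle
        rwa [IsGalois.fixedField_fixingSubgroup] at h1
      have hdeg : finrank E'' M = 3 ^ (m + 1) := by
        rw [← hHcard, hE'']
        exact IntermediateField.finrank_fixedField_eq_card H
      have hmul2 : finrank K E'' * finrank E'' M = 3 ^ n := by
        rw [Module.finrank_mul_finrank, hM]
      have hdbl : finrank K E' = 3 * finrank K E'' := by
        have hp : 0 < 3 ^ m := pow_pos three_pos m
        rw [hdeg, ← hmul, hm, pow_succ] at hmul2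
        have h3 : 3 ^ m * (3 * finrank K E'') = 3 ^ m * finrank K E' := by
          rw [mul_comm (3 ^ m) (finrank K E'), ← hmul2]
          ring
        exact (Nat.eq_of_mul_eq_mul_left hp h3).symm
      let alg : Algebra E'' E' := (IntermediateField.inclusion hle).toRingHom.toAlgebra
      have hst : IsScalarTower K E'' E' :=
        IsScalarTower.of_algebraMap_eq fun x => ((IntermediateField.inclusion hle).commutes x).symm
      have hst2 : IsScalarTower E'' E' M := IsScalarTower.of_algebraMap_eq fun x => rfl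
      have hpos : 0 < finrank K E'' := finrank_pos
      have hcub : finrank E'' E' = 3 := by
        have h4 := Module.finrank_mul_finrank K E'' E'
        rw [hdbl, mul_comm] at h4
        exact Nat.eq_of_mul_eq_mul_right hpos h4
      have hG : IsGalois E'' E' := by
        have h5 : IsGalois E'' M := inferInstance
        exact galois_of_prime (M := M) Nat.prime_three hdeg hcub
      have hr'' : RamCond3 E'' := fun q hq => hr q (ram_up q hq)
      obtain ⟨hT, hNR⟩ := ih (finrank K E'') (by omega) E'' rfl hr''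
      refine ⟨TowerK3.step E'' E' hG hcub ?_ ?_ hT, hNR.up (by rw [hcub]; decide)⟩
      · intro v h3 hv
        have h4 := (hr _ (ram_down (k := K) v hv)).1
        apply h4
        rw [mem_below, map_ofNat]
        exact h3
      · intro v hv hpi
        refine hNR v ?_
        exact (hr _ (ram_down (k := K) v hv)).2 hpi

/-- Subfields of Galois extensions of `K` of degree a power of three, with the ramification
condition, are towers. -/
theorem towerK3_of_galois (F M : Type u) [Field F] [NumberField F] [Field M] [NumberField M]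
    [Algebra K F] [Algebra K M] [Algebra F M] [IsScalarTower K F M] [IsGalois K M] (n : ℕ)
    (hM : finrank K M = 3 ^ n) (hF : RamCond3 F) : TowerK3 F := by
  let f : F →ₐ[K] M := IsScalarTower.toAlgHom K F M
  let e : F ≃ₐ[K] f.fieldRange := AlgEquiv.ofInjectiveField f
  have hr : RamCond3 f.fieldRange := by
    intro q hq
    apply hF q
    let alg2 : Algebra f.fieldRange F := e.symm.toRingEquiv.toRingHom.toAlgebra
    have hst2 : IsScalarTower K f.fieldRange F := IsScalarTower.of_algebraMap_eq fun x =>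
      (e.symm.commutes x).symm
    exact ram_up q hq
  exact towerK3_congr (tower_inter n hM _ f.fieldRange rfl hr).1 F e.symm

end Pool.Agent.Lib.MP_1a91b9_ntT3.S8
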