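import Pool.Agent.Lib.MP_1a91b9_ntT.S3.Card
import Pool.Agent.Lib.MP_1a91b9_ntT3.S8.Gal

/-!
# Towers above any model of `ℚ(√-3)`
-/

set_option autoImplicit false

namespace Pool.Agent.Lib.MP_1a91b9_ntT3.S8

open NumberField IsDedekindDomain Module Pool.Agent.Lib.MP_1a91b9_ntT

universe u

theorem prim_of_eq {k : Type*} [Field k] [CharZero k] {w : k} (hw : w ^ 2 + w + 1 = 0) :
    IsPrimitiveRoot w 3 := by
  refine ⟨by linear_combination (w - 1) * hw, fun l hl => ?_⟩
  have h3 : w ^ 3 = 1 := by linear_combination (w - 1) * hw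
  have h1 : w ≠ 1 := by
    rintro rfl
    norm_num at hw
  have hr := Nat.div_add_mod l 3
  have hlt := Nat.mod_lt l (show 0 < 3 by norm_num)
  rw [← hr, pow_add, pow_mul, h3, one_pow, one_mul] at hl
  interval_cases h : l % 3
  · omega
  · rw [pow_one] at hl
    exact absurd hl h1
  · exfalso
    apply h1
    have : w = -(w ^ 2 + 1) := by linear_combination hw
    rw [hl] at this
    have h2 : w * w = 1 := by rw [← pow_two]; exact hl
    rw [this] at h2
    norm_num at h2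

/-- The isomorphism of `K` with a quadratic field which contains a primitive cube root of
unity. -/
theorem exists_equiv {K₀ : Type*} [Field K₀] [NumberField K₀] (hK : finrank ℚ K₀ = 2) {w : K₀}
    (hw : w ^ 2 + w + 1 = 0) : ∃ e : K ≃+* K₀, e om = w := by
  have hp := prim_of_eq hw
  let f : K →ₐ[ℚ] K₀ := (om_spec.embeddingsEquivPrimitiveRoots K₀
    (Polynomial.cyclotomic.irreducible_rat (by norm_num))).symm
    ⟨w, (mem_primitiveRoots (by norm_num)).2 hp⟩
  have hf : f om = w := by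
    have h := om_spec.embeddingsEquivPrimitiveRoots_apply_coe K₀
      (Polynomial.cyclotomic.irreducible_rat (by norm_num)) f
    rw [← h, Equiv.apply_symm_apply]
  have hfin : finrank ℚ K = finrank ℚ K₀ := by
    rw [hK, S3.finrank_K]
  have hbij : Function.Bijective f := by
    have h1 : Function.Injective f.toLinearMap := f.toRingHom.injective
    exact ⟨h1, (LinearMap.injective_iff_surjective_of_finrank_eq_finrank hfin).1 h1⟩
  exact ⟨(AlgEquiv.ofBijective f hbij).toRingEquiv, hf⟩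

/-- `towerK3_of_galois` for any model of the base field. -/
theorem tower_trans (K₀ F M : Type u) [Field K₀] [NumberField K₀] [Field F] [NumberField F]
    [Field M] [NumberField M] [Algebra K₀ F] [Algebra K₀ M] [Algebra F M] [IsScalarTower K₀ F M]
    [IsGalois K₀ M] (hK : finrank ℚ K₀ = 2) (w : 𝓞 K₀) (hw : w ^ 2 + w + 1 = 0) (n : ℕ)
    (hM : finrank K₀ M = 3 ^ n)
    (hF : ∀ q : HeightOneSpectrum (𝓞 K₀), Ram F q → (3 : 𝓞 K₀) ∉ q.asIdeal ∧
      (w - 2 ∉ q.asIdeal → ∀ t : 𝓞 K₀, t ^ 2 - w * t + 1 ∉ q.asIdeal)) :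
    ∃ a : Algebra K F, algebraMap K F om = algebraMap K₀ F w ∧ TowerK3 F := by
  have hw' : (w : K₀) ^ 2 + (w : K₀) + 1 = 0 := by
    have h := congrArg (algebraMap (𝓞 K₀) K₀) hw
    rw [map_add, map_add, map_pow, map_one, map_zero] at h
    exact h
  obtain ⟨e, he⟩ := exists_equiv hK hw'
  let aF : Algebra K F := ((algebraMap K₀ F).comp e.toRingHom).toAlgebra
  let aM : Algebra K M := ((algebraMap K₀ M).comp e.toRingHom).toAlgebra
  have hFe : ∀ x : K, algebraMap K F x = algebraMap K₀ F (e x) := fun x => rfl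
  have hMe : ∀ x : K, algebraMap K M x = algebraMap K₀ M (e x) := fun x => rfl
  have hst : IsScalarTower K F M := IsScalarTower.of_algebraMap_eq fun x => by
    rw [hMe, hFe]
    exact IsScalarTower.algebraMap_apply K₀ F M (e x)
  refine ⟨aF, by rw [hFe, he], ?_⟩
  have hfin : finrank K M = 3 ^ n := by
    have h1 := finrank_mul_finrank ℚ K M
    have h2 := finrank_mul_finrank ℚ K₀ M
    rw [S3.finrank_K] at h1
    rw [hK, hM] at h2
    omega
  have hgal : IsGalois K M := by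
    have hcard : Nat.card (M ≃ₐ[K] M) = finrank K M := by
      have h1 : Nat.card (M ≃ₐ[K₀] M) = finrank K₀ M := IsGalois.card_aut_eq_finrank K₀ M
      rw [hfin, ← hM, ← h1]
      refine Nat.card_congr ⟨fun σ => AlgEquiv.ofRingEquiv (f := σ.toRingEquiv) fun x => ?_,
        fun σ => AlgEquiv.ofRingEquiv (f := σ.toRingEquiv) fun x => ?_, fun σ => ?_, fun σ => ?_⟩
      · obtain ⟨y, rfl⟩ := e.surjective x
        rw [← hMe]
        exact σ.commutes y
      · rw [hMe]
        exact σ.commutes (e x)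
      · ext x
        rfl
      · ext x
        rfl
    exact IsGalois.of_card_aut_eq_finrank K M hcard
  refine towerK3_of_galois F M n hfin ?_
  let ε : 𝓞 K ≃+* 𝓞 K₀ := RingOfIntegers.mapRingEquiv e
  have hε : ∀ x : 𝓞 K, ((ε x : 𝓞 K₀) : K₀) = e x := fun x => rfl
  have hεw : ε omO = w := by
    apply RingOfIntegers.ext
    rw [hε]
    exact he
  intro q hq
  have hcomm : ∀ y : 𝓞 K, algebraMap (𝓞 K₀) (𝓞 F) (ε y) = algebraMap (𝓞 K) (𝓞 F) y := by
    intro y
    apply RingOfIntegers.ext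
    rfl
  have hprime : (q.asIdeal.comap (ε.symm : 𝓞 K₀ →+* 𝓞 K)).IsPrime :=
    have := q.isPrime
    Ideal.comap_isPrime _ _
  have hmem : ∀ y : 𝓞 K, ε y ∈ q.asIdeal.comap (ε.symm : 𝓞 K₀ →+* 𝓞 K) ↔ y ∈ q.asIdeal := by
    intro y
    rw [Ideal.mem_comap]
    have h1 : (ε.symm : 𝓞 K₀ →+* 𝓞 K) (ε y) = y := ε.symm_apply_apply y
    rw [h1]
  have hbot : q.asIdeal.comap (ε.symm : 𝓞 K₀ →+* 𝓞 K) ≠ ⊥ := by
    intro h
    obtain ⟨y, hy, hy0⟩ := Submodule.exists_mem_ne_zero_of_ne_bot q.ne_bot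
    have h1 := (hmem y).2 hy
    rw [h, Ideal.mem_bot] at h1
    exact hy0 ((map_eq_zero_iff ε ε.injective).1 h1)
  obtain ⟨v, hv⟩ := hq
  have hram : Ram F (⟨q.asIdeal.comap (ε.symm : 𝓞 K₀ →+* 𝓞 K), hprime, hbot⟩ :
      HeightOneSpectrum (𝓞 K₀)) := by
    refine ⟨v, ?_⟩
    rw [Ideal.map_le_iff_le_comap] at hv ⊢
    intro x hx
    obtain ⟨y, rfl⟩ := ε.surjective x
    have h1 := hv ((hmem y).1 hx)
    rw [Ideal.mem_comap] at h1 ⊢
    rw [hcomm]
    exact h1
  obtain ⟨h3, hr⟩ := hF _ hram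
  refine ⟨fun h => h3 ?_, fun hpi t ht => hr (fun h => hpi ?_) (ε t) ?_⟩
  · have h1 := (hmem 3).2 h
    rwa [map_ofNat] at h1
  · rw [← hmem, piO, map_sub, map_ofNat, hεw]
    exact h
  · have h1 := (hmem _).2 ht
    rwa [map_add, map_sub, map_pow, map_mul, map_one, hεw] at h1

end Pool.Agent.Lib.MP_1a91b9_ntT3.S8
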