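import Pool.Agent.Lib.MP_1a91b9_ntT3.S8.Gal
import Pool.Agent.Lib.MP_1a91b9_ntT.D6.Defs

/-!
# S8 (T3): the different of an extension of `K` unramified above `q`
-/

set_option autoImplicit false

namespace Pool.Agent.Lib.MP_1a91b9_ntT3.S8

open NumberField IsDedekindDomain Module Pool.Agent.Lib.MP_1a91b9_ntT
open Pool.Agent.Lib.MP_1a91b9_ntT.S5 (below mem_below exists_above below_below)

universe u

section
variable {k F F' : Type*} [Field k] [NumberField k] [Field F] [NumberField F] [Field F']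
  [NumberField F'] [Algebra k F] [Algebra k F'] [Algebra F F'] [IsScalarTower k F F']

/-- A place whose extension is contained in a place above. -/
theorem eq_below (q : HeightOneSpectrum (𝓞 k)) (w : HeightOneSpectrum (𝓞 F))
    (h : q.asIdeal.map (algebraMap (𝓞 k) (𝓞 F)) ≤ w.asIdeal) : below k w = q := by
  apply HeightOneSpectrum.ext
  refine (q.isMaximal.eq_of_le (below k w).isPrime.ne_top ?_).symm
  exact Ideal.map_le_iff_le_comap.1 h

/-- Unramified places in towers. -/
theorem not_ram_tower (q : HeightOneSpectrum (𝓞 k)) (h1 : ¬ Ram F q)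
    (h2 : ∀ v : HeightOneSpectrum (𝓞 F), below k v = q → ¬ Ram F' v) : ¬ Ram F' q := by
  rintro ⟨w, hw⟩
  have hqw := eq_below q w (hw.trans (Ideal.pow_le_self two_ne_zero))
  have hvq : below k (below F w) = q := by rw [below_below, hqw]
  have hle : q.asIdeal.map (algebraMap (𝓞 k) (𝓞 F)) ≤ (below F w).asIdeal := by
    rw [Ideal.map_le_iff_le_comap, ← hvq]
    exact le_of_eq rfl
  obtain ⟨J, hJ⟩ := Ideal.dvd_iff_le.2 hle
  have hJv : ¬ J ≤ (below F w).asIdeal := by
    intro h
    apply h1
    refine ⟨below F w, ?_⟩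
    rw [hJ, sq]
    exact Ideal.mul_mono_right h
  apply h2 (below F w) hvq
  refine ⟨w, ?_⟩
  rw [map_tower (F := F), hJ, Ideal.map_mul, ← Ideal.dvd_iff_le] at hw
  rw [← Ideal.dvd_iff_le]
  refine w.prime.pow_dvd_of_dvd_mul_right 2 ?_ hw
  intro h
  rw [Ideal.dvd_iff_le, Ideal.map_le_iff_le_comap] at h
  exact hJv h

/-- No ramification for isomorphisms. -/
theorem not_ram_of_bijective (h : Function.Bijective (algebraMap k F))
    (q : HeightOneSpectrum (𝓞 k)) : ¬ Ram F q := by
  rintro ⟨w, hw⟩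
  have hqw := eq_below q w (hw.trans (Ideal.pow_le_self two_ne_zero))
  have hs : Function.Surjective (algebraMap (𝓞 k) (𝓞 F)) := by
    intro t
    obtain ⟨y, hy⟩ := h.2 (t : F)
    have hint : IsIntegral ℤ y := by
      have h1 : IsIntegral ℤ (algebraMap k F y) := by
        rw [hy]
        exact RingOfIntegers.isIntegral_coe t
      exact (isIntegral_algebraMap_iff h.1).1 h1
    exact ⟨⟨y, hint⟩, RingOfIntegers.ext hy⟩
  have h1 : (below k w).asIdeal.map (algebraMap (𝓞 k) (𝓞 F)) = w.asIdeal :=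
    Ideal.map_comap_of_surjective _ hs _
  rw [← hqw, h1] at hw
  have h2 : w.asIdeal ^ 2 < w.asIdeal := Ideal.pow_lt_self _ w.ne_bot w.isPrime.ne_top 2 le_rfl
  exact absurd hw h2.not_ge

end

/-- The dual of the ring of integers is integral away from the ramified primes. -/
theorem uq_of_unram (q : ℕ) (hq : q.Prime) (F : Type u) [Field F] [NumberField F] [Algebra K F]
    (h : ∀ v : HeightOneSpectrum (𝓞 K), (q : 𝓞 K) ∈ v.asIdeal → ¬ Ram F v) : Ell.UQ q F := by
  set D := differentIdeal (𝓞 K) (𝓞 F) with hD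
  refine ⟨Ideal.absNorm D, ?_, ?_⟩
  · rw [Nat.coprime_comm, Nat.Prime.coprime_iff_not_dvd hq]
    intro hdvd
    obtain ⟨P, hPm, hPq, hPD⟩ := Ideal.exists_isMaximal_dvd_of_dvd_absNorm' hq D hdvd
    have hP0 : P ≠ ⊥ := by
      rintro rfl
      have h1 : D = ⊥ := by
        have := Ideal.dvd_iff_le.1 hPD
        rwa [le_bot_iff] at this
      exact differentIdeal_ne_bot h1
    set w : HeightOneSpectrum (𝓞 F) := ⟨P, hPm.isPrime, hP0⟩ with hw
    have hqP : (q : 𝓞 F) ∈ P := by
      have h1 : (q : ℤ) ∈ P.under ℤ := by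
        rw [hPq]
        exact Ideal.mem_span_singleton_self _
      have h2 : algebraMap ℤ (𝓞 F) (q : ℤ) ∈ P := h1
      simpa using h2
    have hram := h (below K w) (by
      rw [mem_below, map_natCast]
      exact hqP)
    have hle : (below K w).asIdeal.map (algebraMap (𝓞 K) (𝓞 F)) ≤ w.asIdeal :=
      Ideal.map_le_iff_le_comap.2 le_rfl
    obtain ⟨J, hJ⟩ := Ideal.dvd_iff_le.2 hle
    have hmax : (below K w).asIdeal.IsMaximal := (below K w).isMaximal
    have hfin : Finite (𝓞 K ⧸ (below K w).asIdeal) :=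
      Ring.HasFiniteQuotients.finiteQuotient (below K w).ne_bot
    refine not_dvd_differentIdeal_of_isCoprime (𝓞 K) P J ?_ hJ.symm hPD
    rw [Ideal.isCoprime_iff_sup_eq]
    by_contra hne
    have h3 := hPm.eq_of_le hne le_sup_left
    have h4 : J ≤ P := by
      rw [h3]
      exact le_sup_right
    apply hram
    refine ⟨w, ?_⟩
    rw [hJ, sq]
    exact Ideal.mul_mono_right h4
  · intro v hv
    have h1 : (algebraMap (𝓞 F) F) (Ideal.absNorm D : 𝓞 F) ∈
        IsLocalization.coeSubmodule F (differentIdeal (𝓞 K) (𝓞 F)) :=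
      Submodule.mem_map_of_mem (Ideal.absNorm_mem D)
    rw [coeSubmodule_differentIdeal (𝓞 K) K, Submodule.mem_div_iff_forall_mul_mem] at h1
    have h2 : v ∈ Submodule.traceDual (𝓞 K) K (1 : Submodule (𝓞 F) F) := by
      rw [Submodule.mem_traceDual]
      intro a ha
      obtain ⟨z, rfl⟩ := Submodule.mem_one.1 ha
      obtain ⟨c, hc⟩ := hv z
      exact ⟨c, by rw [Algebra.traceForm_apply]; exact hc.symm⟩
    obtain ⟨z, hz⟩ := Submodule.mem_one.1 (h1 v h2)
    rw [map_natCast] at hz
    rw [← hz]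
    exact RingOfIntegers.isIntegral_coe z

/-- The fields of the tower are unramified above `3`. -/
theorem unr_three {F : Type u} [Field F] [NumberField F] [Algebra K F] (h : TowerK3 F) :
    ∀ q : HeightOneSpectrum (𝓞 K), (3 : 𝓞 K) ∈ q.asIdeal → ¬ Ram F q := by
  induction h with
  | base F hb => exact fun q _ => not_ram_of_bijective hb q
  | step F F' hG hr hu ha h ih =>
    intro q hq
    refine not_ram_tower (F := F) q (ih q hq) fun v hv => hu v ?_
    subst hv
    rw [mem_below, map_ofNat] at hq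
    exact hq

theorem uq_three {F : Type u} [Field F] [NumberField F] [Algebra K F] (h : TowerK3 F) :
    Ell.UQ 3 F :=
  uq_of_unram 3 Nat.prime_three F fun v hv => unr_three h v (by exact_mod_cast hv)

theorem finrank_tower3 {F : Type u} [Field F] [NumberField F] [Algebra K F] (h : TowerK3 F) :
    ∃ k : ℕ, finrank K F = 3 ^ k := by
  induction h with
  | base F hb =>
    refine ⟨0, ?_⟩
    rw [pow_zero]
    exact (LinearEquiv.ofBijective (Algebra.linearMap K F) hb).finrank_eq.symm.trans
      (finrank_self K)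
  | step F F' hG hr hu ha h ih =>
    obtain ⟨k, hk⟩ := ih
    refine ⟨k + 1, ?_⟩
    rw [← Module.finrank_mul_finrank K F F', hk, hr, pow_succ]

end Pool.Agent.Lib.MP_1a91b9_ntT3.S8
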